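import Pool.Agent.Helper98.LogPoly.Defs

/-! Piece P1 BESSEL of MP_b30792_pr (helper93). -/

set_option autoImplicit false

namespace Pool.Agent.Helper98.LogPoly

open Filter Topology

/-! ### entire series -/

/-- coefficient bound -/
def EB (a : ℕ → ℝ) (C D : ℝ) : Prop := ∀ k, |a k| ≤ D * (C ^ k / (k.factorial : ℝ))

theorem EB.succ {a : ℕ → ℝ} {C D : ℝ} (h : EB a C D) :
    EB (fun k => ((k : ℝ) + 1) * a (k + 1)) C (D * C) := by
  intro k
  have h1 := h (k + 1)
  have hk : (0 : ℝ) < (k : ℝ) + 1 := by positivity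
  have hf : (0 : ℝ) < (k.factorial : ℝ) := by exact_mod_cast k.factorial_pos
  rw [abs_mul, abs_of_pos hk]
  have h2 : ((k : ℝ) + 1) * |a (k + 1)| ≤
      ((k : ℝ) + 1) * (D * (C ^ (k + 1) / ((k + 1).factorial : ℝ))) :=
    mul_le_mul_of_nonneg_left h1 hk.le
  refine h2.trans (le_of_eq ?_)
  rw [Nat.factorial_succ]
  push_cast
  field_simp
  ring

theorem EB.summable {a : ℕ → ℝ} {C D : ℝ} (h : EB a C D) (t : ℝ) :
    Summable fun k => a k * t ^ k := by
  have h1 : Summable fun k : ℕ => D * ((C * |t|) ^ k / (k.factorial : ℝ)) :=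
    (Real.summable_pow_div_factorial (C * |t|)).mul_left D
  refine Summable.of_norm_bounded h1 fun k => ?_
  rw [Real.norm_eq_abs, abs_mul, abs_pow]
  refine (mul_le_mul_of_nonneg_right (h k) (pow_nonneg (abs_nonneg t) k)).trans (le_of_eq ?_)
  rw [mul_pow]
  ring

theorem EB.hasDerivAt {a : ℕ → ℝ} {C D : ℝ} (h : EB a C D) (hC : 0 ≤ C) (t : ℝ) :
    HasDerivAt (fun t => ∑' k, a k * t ^ k) (∑' k : ℕ, (((k : ℝ) + 1) * a (k + 1)) * t ^ k) t := by
  set R : ℝ := |t| + 1 with hR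
  have hR0 : 0 < R := by positivity
  set u : ℕ → ℝ := fun n => |a n| * (n * R ^ (n - 1)) with hu
  have hus : Summable u := by
    rw [← summable_nat_add_iff 1]
    have h1 : Summable fun k : ℕ => (D * C) * ((C * R) ^ k / (k.factorial : ℝ)) :=
      (Real.summable_pow_div_factorial (C * R)).mul_left _
    refine Summable.of_nonneg_of_le (fun k => by positivity) (fun k => ?_) h1
    have h2 := h.succ k
    have hk : (0 : ℝ) < (k : ℝ) + 1 := by positivity
    rw [abs_mul, abs_of_pos hk] at h2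
    simp only [hu, Nat.add_sub_cancel]
    push_cast
    calc |a (k + 1)| * (((k : ℝ) + 1) * R ^ k) = (((k : ℝ) + 1) * |a (k + 1)|) * R ^ k := by ring
      _ ≤ (D * C * (C ^ k / (k.factorial : ℝ))) * R ^ k :=
        mul_le_mul_of_nonneg_right h2 (by positivity)
      _ = D * C * ((C * R) ^ k / (k.factorial : ℝ)) := by rw [mul_pow]; ring
  have ht : t ∈ Metric.ball (0 : ℝ) R := by
    rw [Metric.mem_ball, dist_zero_right, Real.norm_eq_abs, hR]; linarith
  have key := hasDerivAt_tsum_of_isPreconnected (g := fun n (z : ℝ) => a n * z ^ n)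
    (g' := fun n z => a n * (n * z ^ (n - 1))) (u := u) (t := Metric.ball (0 : ℝ) R)
    (y₀ := 0) (y := t) hus Metric.isOpen_ball (convex_ball (0 : ℝ) R).isPreconnected
    (fun n y _ => (hasDerivAt_pow n y).const_mul (a n)) ?_ ?_ (h.summable 0) ht
  · have h3 : (∑' n, a n * (n * t ^ (n - 1))) =
        ∑' k : ℕ, (((k : ℝ) + 1) * a (k + 1)) * t ^ k := by
      have hs : Summable fun n : ℕ => a n * (n * t ^ (n - 1)) := by
        rw [← summable_nat_add_iff 1]
        refine (h.succ.summable t).congr fun k => ?_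
        simp only [Nat.add_sub_cancel]
        push_cast
        ring
      rw [hs.tsum_eq_zero_add]
      simp only [Nat.cast_zero, zero_mul, mul_zero, zero_add, Nat.add_sub_cancel]
      refine tsum_congr fun k => ?_
      push_cast
      ring
    rw [← h3]
    exact key
  · intro n y hy
    rw [Real.norm_eq_abs, abs_mul, abs_mul, abs_pow, Nat.abs_cast]
    simp only [hu]
    have hy' : |y| ≤ R := by
      rw [Metric.mem_ball, dist_zero_right, Real.norm_eq_abs] at hy; exact hy.le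
    gcongr
  · exact Metric.mem_ball_self hR0

/-! ### the coefficients -/

theorem gco_zero (p : ℝ) : gco p 0 = 1 := by simp [gco]

theorem den_pos {p : ℝ} (hp : 1 < p) (j : ℕ) :
    0 < ((j : ℝ) + 1) * p * (((j : ℝ) + 1) * p - 1) := by
  have h1 : (0 : ℝ) ≤ j := Nat.cast_nonneg j
  have h2 : 0 < ((j : ℝ) + 1) * p := by positivity
  have h3 : 0 < ((j : ℝ) + 1) * p - 1 := by nlinarith
  positivity

theorem gco_succ {p : ℝ} (hp : 1 < p) (k : ℕ) :
    gco p (k + 1) * (((k : ℝ) + 1) * p * (((k : ℝ) + 1) * p - 1)) = -2 * gco p k := by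
  have h1 := den_pos hp k
  have h2 : (∏ j ∈ Finset.range k, (((j : ℝ) + 1) * p * (((j : ℝ) + 1) * p - 1))) ≠ 0 :=
    Finset.prod_ne_zero_iff.2 fun j _ => (den_pos hp j).ne'
  simp only [gco, Finset.prod_range_succ]
  generalize (∏ j ∈ Finset.range k, (((j : ℝ) + 1) * p * (((j : ℝ) + 1) * p - 1))) = Q at h2 ⊢
  rw [div_mul_eq_mul_div, div_eq_iff (mul_ne_zero h2 h1.ne'), pow_succ]
  field_simp

theorem gco_EB {p : ℝ} (hp : 1 < p) : EB (gco p) (2 / (p * (p - 1))) 1 := by
  intro k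
  have hpp : 0 < p * (p - 1) := mul_pos (by linarith) (by linarith)
  induction k with
  | zero => simp [gco_zero]
  | succ k ih =>
    have h1 := den_pos hp k
    have h2 := gco_succ hp k
    have h3 : |gco p (k + 1)| * (((k : ℝ) + 1) * p * (((k : ℝ) + 1) * p - 1)) = 2 * |gco p k| := by
      rw [← abs_of_pos h1, ← abs_mul, h2, abs_mul]
      norm_num
    have hk : (0 : ℝ) < (k : ℝ) + 1 := by positivity
    have hf : (0 : ℝ) < (k.factorial : ℝ) := by exact_mod_cast k.factorial_pos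
    have h4 : ((k : ℝ) + 1) * (p * (p - 1)) ≤ ((k : ℝ) + 1) * p * (((k : ℝ) + 1) * p - 1) := by
      have : (0 : ℝ) ≤ k := Nat.cast_nonneg k
      have : p - 1 ≤ ((k : ℝ) + 1) * p - 1 := by nlinarith
      have h5 : ((k : ℝ) + 1) * p * (p - 1) ≤ ((k : ℝ) + 1) * p * (((k : ℝ) + 1) * p - 1) :=
        mul_le_mul_of_nonneg_left this (by positivity)
      linarith [h5, show ((k : ℝ) + 1) * (p * (p - 1)) = ((k : ℝ) + 1) * p * (p - 1) by ring]
    have h6 : |gco p (k + 1)| * (((k : ℝ) + 1) * (p * (p - 1))) ≤ 2 * |gco p k| := by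
      rw [← h3]
      exact mul_le_mul_of_nonneg_left h4 (abs_nonneg _)
    have h7 : 0 < ((k : ℝ) + 1) * (p * (p - 1)) := by positivity
    rw [← le_div_iff₀ h7] at h6
    refine h6.trans ?_
    rw [div_le_iff₀ h7]
    calc 2 * |gco p k| ≤ 2 * (1 * ((2 / (p * (p - 1))) ^ k / (k.factorial : ℝ))) := by
          linarith [ih]
      _ = 1 * ((2 / (p * (p - 1))) ^ (k + 1) / ((k + 1).factorial : ℝ)) *
          (((k : ℝ) + 1) * (p * (p - 1))) := by
          have hp1 : p - 1 ≠ 0 := (sub_pos.2 hp).ne'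
          have hp2 : p ≠ 0 := by linarith
          rw [Nat.factorial_succ, pow_succ]
          push_cast
          field_simp

theorem Cnn {p : ℝ} (hp : 1 < p) : 0 ≤ 2 / (p * (p - 1)) := by
  have hpp : 0 < p * (p - 1) := mul_pos (by linarith) (by linarith)
  positivity

theorem GG_zero (p : ℝ) : GG p 0 = 1 := by
  unfold GG
  rw [tsum_eq_single 0]
  · simp [gco_zero]
  · intro k hk
    simp [hk]

theorem hasDerivAt_GG {p : ℝ} (hp : 1 < p) (t : ℝ) : HasDerivAt (GG p) (GG1 p t) t :=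
  (gco_EB hp).hasDerivAt (Cnn hp) t

theorem hasDerivAt_GG1 {p : ℝ} (hp : 1 < p) (t : ℝ) : HasDerivAt (GG1 p) (GG2 p t) t := by
  have h := (gco_EB hp).succ.hasDerivAt (Cnn hp) t
  have h2 : (∑' k : ℕ, ((k : ℝ) + 1) * ((((k + 1 : ℕ) : ℝ) + 1) * gco p (k + 1 + 1)) * t ^ k) =
      GG2 p t := by
    unfold GG2
    refine tsum_congr fun k => ?_
    push_cast
    ring
  rw [h2] at h
  exact h

theorem continuous_GG {p : ℝ} (hp : 1 < p) : Continuous (GG p) :=
  continuous_iff_continuousAt.2 fun t => (hasDerivAt_GG hp t).continuousAt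

theorem continuous_GG1 {p : ℝ} (hp : 1 < p) : Continuous (GG1 p) :=
  continuous_iff_continuousAt.2 fun t => (hasDerivAt_GG1 hp t).continuousAt

theorem GG2_eq {p : ℝ} (t : ℝ) : GG2 p t =
    ∑' k : ℕ, ((k : ℝ) + 1) * ((((k + 1 : ℕ) : ℝ) + 1) * gco p (k + 1 + 1)) * t ^ k := by
  unfold GG2
  refine tsum_congr fun k => ?_
  push_cast
  ring

theorem continuous_GG2 {p : ℝ} (hp : 1 < p) : Continuous (GG2 p) := by
  have h1 : GG2 p = fun t =>
      ∑' k : ℕ, ((k : ℝ) + 1) * ((((k + 1 : ℕ) : ℝ) + 1) * gco p (k + 1 + 1)) * t ^ k := by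
    funext t; exact GG2_eq t
  rw [h1]
  exact continuous_iff_continuousAt.2 fun t =>
    ((gco_EB hp).succ.succ.hasDerivAt (Cnn hp) t).continuousAt

theorem GG_ode {p : ℝ} (hp : 1 < p) (t : ℝ) :
    p ^ 2 * t * GG2 p t + p * (p - 1) * GG1 p t = -2 * GG p t := by
  have s0 := (gco_EB hp).summable t
  have s1 : Summable fun k : ℕ => ((k : ℝ) + 1) * gco p (k + 1) * t ^ k :=
    (gco_EB hp).succ.summable t
  have s2 : Summable fun k : ℕ => ((k : ℝ) + 2) * ((k : ℝ) + 1) * gco p (k + 2) * t ^ k := by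
    refine ((gco_EB hp).succ.succ.summable t).congr fun k => ?_
    push_cast
    ring
  have e2 : p ^ 2 * t * GG2 p t =
      ∑' k : ℕ, p ^ 2 * (((k : ℝ) + 1) * k * gco p (k + 1)) * t ^ k := by
    have hs : Summable fun k : ℕ => p ^ 2 * (((k : ℝ) + 1) * k * gco p (k + 1)) * t ^ k := by
      rw [← summable_nat_add_iff 1]
      refine (s2.mul_left (p ^ 2 * t)).congr fun k => ?_
      push_cast
      ring
    rw [hs.tsum_eq_zero_add]
    unfold GG2
    rw [← tsum_mul_left]
    simp only [Nat.cast_zero, mul_zero, zero_mul, zero_add]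
    refine tsum_congr fun k => ?_
    push_cast
    ring
  have hs : Summable fun k : ℕ => p ^ 2 * (((k : ℝ) + 1) * k * gco p (k + 1)) * t ^ k := by
    rw [← summable_nat_add_iff 1]
    refine (s2.mul_left (p ^ 2 * t)).congr fun k => ?_
    push_cast
    ring
  rw [e2]
  unfold GG1 GG
  rw [← tsum_mul_left, ← tsum_mul_left, ← hs.tsum_add (s1.mul_left _)]
  refine tsum_congr fun k => ?_
  have h := gco_succ hp k
  linear_combination (t ^ k) * h

/-! ### positivity and the first zero -/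

/-- `φ(t) = t^(1-1/p) G'(t)` -/
noncomputable def phi (p t : ℝ) : ℝ := t ^ (1 - 1 / p) * GG1 p t

theorem one_sub_pos {p : ℝ} (hp : 1 < p) : 0 < 1 - 1 / p := by
  rw [sub_pos, div_lt_one (by linarith)]; exact hp

theorem phi_zero {p : ℝ} (hp : 1 < p) : phi p 0 = 0 := by
  unfold phi
  rw [Real.zero_rpow (one_sub_pos hp).ne', zero_mul]

theorem continuous_phi {p : ℝ} (hp : 1 < p) : Continuous (phi p) := by
  unfold phi
  exact (Real.continuous_rpow_const (one_sub_pos hp).le).mul (continuous_GG1 hp)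

theorem hasDerivAt_phi {p : ℝ} (hp : 1 < p) {t : ℝ} (ht : 0 < t) :
    HasDerivAt (phi p) (-(2 / p ^ 2) * t ^ (-(1 / p)) * GG p t) t := by
  have hp0 : p ≠ 0 := by linarith
  have h1 : HasDerivAt (fun t : ℝ => t ^ (1 - 1 / p)) ((1 - 1 / p) * t ^ (1 - 1 / p - 1)) t :=
    Real.hasDerivAt_rpow_const (Or.inl ht.ne')
  have h2 := h1.mul (hasDerivAt_GG1 hp t)
  have h3 : t ^ (1 - 1 / p) = t * t ^ (-(1 / p)) := by
    rw [show (1 - 1 / p : ℝ) = 1 + (-(1 / p)) by ring, Real.rpow_add ht, Real.rpow_one]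
  have h4 : t ^ (1 - 1 / p - 1) = t ^ (-(1 / p)) := by
    congr 1; ring
  have h5 : (1 - 1 / p) * t ^ (1 - 1 / p - 1) * GG1 p t + t ^ (1 - 1 / p) * GG2 p t =
      -(2 / p ^ 2) * t ^ (-(1 / p)) * GG p t := by
    rw [h3, h4]
    have hode := GG_ode hp t
    field_simp
    linear_combination hode
  rw [h5] at h2
  exact h2

theorem exists_zero {p : ℝ} (hp : 1 < p) : ∃ t : ℝ, 0 < t ∧ GG p t = 0 := by
  by_contra hno
  push Not at hno
  have hp0 : 0 < p := by linarith
  have hpos : ∀ t : ℝ, 0 ≤ t → 0 < GG p t := by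
    intro t ht
    by_contra hneg
    push Not at hneg
    have hiv := intermediate_value_Icc' ht (continuous_GG hp).continuousOn
    have h0 : (0 : ℝ) ∈ Set.Icc (GG p t) (GG p 0) := ⟨hneg, by rw [GG_zero]; norm_num⟩
    obtain ⟨s, hs, hs0⟩ := hiv h0
    have hs1 : s ≠ 0 := by
      rintro rfl
      rw [GG_zero] at hs0
      norm_num at hs0
    exact hno s (lt_of_le_of_ne hs.1 (Ne.symm hs1)) hs0
  have hanti : StrictAntiOn (phi p) (Set.Ici 0) := by
    refine strictAntiOn_of_deriv_neg (convex_Ici 0) (continuous_phi hp).continuousOn ?_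
    intro t ht
    rw [interior_Ici] at ht
    have ht' : 0 < t := ht
    rw [(hasDerivAt_phi hp ht').deriv]
    have h1 := hpos t ht'.le
    have h2 : 0 < t ^ (-(1 / p)) := Real.rpow_pos_of_pos ht' _
    have h3 : 0 < 2 / p ^ 2 := by positivity
    have : 0 < 2 / p ^ 2 * t ^ (-(1 / p)) * GG p t := by positivity
    linarith
  set c : ℝ := -phi p 1 with hc
  have hc0 : 0 < c := by
    have := hanti (Set.mem_Ici.2 le_rfl) (Set.mem_Ici.2 (zero_le_one)) zero_lt_one
    rw [phi_zero hp] at this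
    rw [hc]; linarith
  -- ψ(t) = G(t) + c p t^(1/p)
  have hψ : AntitoneOn (fun t : ℝ => GG p t + c * p * t ^ (1 / p)) (Set.Ici 1) := by
    refine antitoneOn_of_deriv_nonpos (convex_Ici 1) ?_ ?_ ?_
    · refine ((continuous_GG hp).add (continuous_const.mul
        (Real.continuous_rpow_const (by positivity)))).continuousOn
    · intro t ht
      rw [interior_Ici] at ht
      have ht' : (0 : ℝ) < t := lt_trans zero_lt_one ht
      exact ((hasDerivAt_GG hp t).add ((Real.hasDerivAt_rpow_const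
        (Or.inl ht'.ne')).const_mul (c * p))).differentiableAt.differentiableWithinAt
    · intro t ht
      rw [interior_Ici] at ht
      have ht1 : (1 : ℝ) < t := ht
      have ht' : (0 : ℝ) < t := lt_trans zero_lt_one ht
      have hd := ((hasDerivAt_GG hp t).add ((Real.hasDerivAt_rpow_const (p := 1 / p)
        (Or.inl ht'.ne')).const_mul (c * p)))
      have hd' : deriv (fun t : ℝ => GG p t + c * p * t ^ (1 / p)) t =
        GG1 p t + c * p * (1 / p * t ^ (1 / p - 1)) := hd.deriv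
      rw [hd']
      have h1 : phi p t ≤ -c := by
        have := hanti.antitoneOn (Set.mem_Ici.2 (zero_le_one)) (Set.mem_Ici.2 ht'.le) ht1.le
        rw [hc]; linarith
      have h2 : c * p * (1 / p * t ^ (1 / p - 1)) = c * t ^ (1 / p - 1) := by
        field_simp
      rw [h2]
      have h3 : 0 < t ^ (1 / p - 1) := Real.rpow_pos_of_pos ht' _
      have h4 : t ^ (1 / p - 1) * t ^ (1 - 1 / p) = 1 := by
        rw [← Real.rpow_add ht']
        simp
      have h5 : GG1 p t = t ^ (1 / p - 1) * phi p t := by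
        unfold phi
        rw [← mul_assoc, h4, one_mul]
      rw [h5]
      nlinarith
  -- large t
  have hlim : Tendsto (fun t : ℝ => c * p * t ^ (1 / p)) atTop atTop :=
    (tendsto_rpow_atTop (by positivity)).const_mul_atTop (by positivity)
  obtain ⟨T, hT1, hT2⟩ := ((hlim.eventually_gt_atTop (GG p 1 + c * p * 1 ^ (1 / p))).and
    (eventually_ge_atTop 1)).exists
  have h1 := hψ (Set.mem_Ici.2 le_rfl) (Set.mem_Ici.2 hT2) hT2
  simp only at h1
  have h2 := hpos T (by linarith)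
  linarith

theorem isLeast_tst {p : ℝ} (hp : 1 < p) : IsLeast {t : ℝ | 0 < t ∧ GG p t = 0} (tst p) := by
  have hset : {t : ℝ | 0 < t ∧ GG p t = 0} = Set.Ici 0 ∩ {t | GG p t = 0} := by
    ext t
    constructor
    · rintro ⟨h1, h2⟩
      exact ⟨h1.le, h2⟩
    · rintro ⟨h1, h2⟩
      refine ⟨lt_of_le_of_ne h1 ?_, h2⟩
      rintro rfl
      have h2' : GG p 0 = 0 := h2
      rw [GG_zero] at h2'
      norm_num at h2'
  have hcl : IsClosed {t : ℝ | 0 < t ∧ GG p t = 0} := by
    rw [hset]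
    exact isClosed_Ici.inter (isClosed_eq (continuous_GG hp) continuous_const)
  have hbdd : BddBelow {t : ℝ | 0 < t ∧ GG p t = 0} := ⟨0, fun t ht => ht.1.le⟩
  exact ⟨hcl.csInf_mem (exists_zero hp) hbdd, fun t ht => csInf_le hbdd ht⟩

theorem tst_pos {p : ℝ} (hp : 1 < p) : 0 < tst p := (isLeast_tst hp).1.1

theorem GG_pos {p : ℝ} (hp : 1 < p) {t : ℝ} (h0 : 0 ≤ t) (ht : t < tst p) : 0 < GG p t := by
  by_contra hneg
  push Not at hneg
  have hiv := intermediate_value_Icc' h0 (continuous_GG hp).continuousOn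
  have h1 : (0 : ℝ) ∈ Set.Icc (GG p t) (GG p 0) := ⟨hneg, by rw [GG_zero]; norm_num⟩
  obtain ⟨s, hs, hs0⟩ := hiv h1
  have hs1 : s ≠ 0 := by
    rintro rfl
    rw [GG_zero] at hs0
    norm_num at hs0
  have h2 := (isLeast_tst hp).2 ⟨lt_of_le_of_ne hs.1 (Ne.symm hs1), hs0⟩
  linarith [hs.2]

theorem GG1_zero {p : ℝ} (hp : 1 < p) : GG1 p 0 = -2 / (p * (p - 1)) := by
  have h := GG_ode hp 0
  rw [GG_zero] at h
  have hpp : p * (p - 1) ≠ 0 := (mul_pos (by linarith) (by linarith)).ne'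
  rw [eq_div_iff hpp]
  linarith

theorem GG1_neg {p : ℝ} (hp : 1 < p) {t : ℝ} (h0 : 0 ≤ t) (ht : t ≤ tst p) : GG1 p t < 0 := by
  have hpp : 0 < p * (p - 1) := mul_pos (by linarith) (by linarith)
  rcases h0.eq_or_lt with rfl | h0'
  · rw [GG1_zero hp]
    exact div_neg_of_neg_of_pos (by norm_num) hpp
  · have hanti : StrictAntiOn (phi p) (Set.Icc 0 (tst p)) := by
      refine strictAntiOn_of_deriv_neg (convex_Icc 0 _) (continuous_phi hp).continuousOn ?_
      intro t ht
      rw [interior_Icc] at ht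
      rw [(hasDerivAt_phi hp ht.1).deriv]
      have h1 := GG_pos hp ht.1.le ht.2
      have h2 : 0 < t ^ (-(1 / p)) := Real.rpow_pos_of_pos ht.1 _
      have h3 : 0 < 2 / p ^ 2 := by
        have : 0 < p := by linarith
        positivity
      have : 0 < 2 / p ^ 2 * t ^ (-(1 / p)) * GG p t := by positivity
      linarith
    have h1 := hanti (Set.left_mem_Icc.2 (tst_pos hp).le) ⟨h0, ht⟩ h0'
    rw [phi_zero hp] at h1
    unfold phi at h1
    have h2 : 0 < t ^ (1 - 1 / p) := Real.rpow_pos_of_pos h0' _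
    by_contra hge
    push Not at hge
    have : 0 ≤ t ^ (1 - 1 / p) * GG1 p t := mul_nonneg h2.le hge
    linarith

/-! ### Bessel -/

theorem Gamma_add_nat {α : ℝ} (hα : 0 < α + 1) (k : ℕ) :
    Real.Gamma ((k : ℝ) + α + 1) =
      Real.Gamma (α + 1) * ∏ j ∈ Finset.range k, ((j : ℝ) + 1 + α) := by
  induction k with
  | zero => simp
  | succ k ih =>
    have h1 : ((k + 1 : ℕ) : ℝ) + α + 1 = ((k : ℝ) + α + 1) + 1 := by push_cast; ring
    have h2 : (k : ℝ) + α + 1 ≠ 0 := by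
      have : (0 : ℝ) ≤ k := Nat.cast_nonneg k
      linarith
    rw [h1, Real.Gamma_add_one h2, ih, Finset.prod_range_succ]
    ring

theorem gco_bessel {p : ℝ} (hp : 1 < p) (k : ℕ) :
    gco p k * p ^ (2 * k) =
      (-2) ^ k / ((k.factorial : ℝ) * ∏ j ∈ Finset.range k, ((j : ℝ) + 1 + (-1 / p))) := by
  have hp0 : 0 < p := by linarith
  induction k with
  | zero => simp [gco_zero]
  | succ k ih =>
    have h1 := gco_succ hp k
    have h2 := den_pos hp k
    have hk : (0 : ℝ) < (k : ℝ) + 1 := by positivity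
    have h3 : 0 < (k : ℝ) + 1 + (-1 / p) := by
      have : 1 / p < 1 := by rw [div_lt_one hp0]; exact hp
      have h4 : (0 : ℝ) ≤ k := Nat.cast_nonneg k
      have h5 : -1 / p = -(1 / p) := by ring
      rw [h5]; linarith
    have h4 : ((k : ℝ) + 1) * p * (((k : ℝ) + 1) * p - 1) =
        p ^ 2 * (((k : ℝ) + 1) * ((k : ℝ) + 1 + (-1 / p))) := by
      field_simp
      ring
    have h5 : gco p (k + 1) * p ^ 2 * (((k : ℝ) + 1) * ((k : ℝ) + 1 + (-1 / p))) =
        -2 * gco p k := by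
      rw [← h1, h4]; ring
    have h6 : gco p (k + 1) * p ^ 2 = -2 * gco p k / (((k : ℝ) + 1) * ((k : ℝ) + 1 + (-1 / p))) := by
      rw [eq_div_iff (mul_pos hk h3).ne']
      exact h5
    have h7 : gco p (k + 1) * p ^ (2 * (k + 1)) = (gco p (k + 1) * p ^ 2) * p ^ (2 * k) := by
      rw [show 2 * (k + 1) = 2 + 2 * k by ring, pow_add]; ring
    rw [h7, h6, Finset.prod_range_succ, Nat.factorial_succ, pow_succ]
    push_cast
    rw [div_mul_eq_mul_div, show -2 * gco p k * p ^ (2 * k) = -2 * (gco p k * p ^ (2 * k)) by ring,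
      ih, ← mul_div_assoc, div_div]
    congr 1
    · ring
    · ring

theorem besselJt_eq {p : ℝ} (hp : 1 < p) {z : ℝ} (hz : 0 < z) :
    besselJt (-1 / p) z = GG p (p ^ 2 * z ^ 2 / 8) := by
  have hp0 : 0 < p := by linarith
  set α : ℝ := -1 / p with hα
  have hα1 : 0 < α + 1 := by
    have : 1 / p < 1 := by rw [div_lt_one hp0]; exact hp
    have h5 : α = -(1 / p) := by rw [hα]; ring
    rw [h5]; linarith
  have hΓ : 0 < Real.Gamma (α + 1) := Real.Gamma_pos_of_pos hα1
  have hz2 : 0 < z / 2 := by positivity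
  unfold besselJt besselJ GG
  rw [← tsum_mul_left]
  refine tsum_congr fun k => ?_
  rw [Gamma_add_nat hα1 k]
  have h1 : (z / 2) ^ (2 * (k : ℝ) + α) = (z / 2) ^ α * ((z / 2) ^ 2) ^ k := by
    rw [add_comm, Real.rpow_add hz2]
    congr 1
    rw [← pow_mul, ← Real.rpow_natCast]
    push_cast
    rfl
  have h2 : (z / 2) ^ (-α) * (z / 2) ^ α = 1 := by
    rw [← Real.rpow_add hz2]; simp
  rw [h1]
  have h3 := gco_bessel hp k
  rw [← hα] at h3
  set Q : ℝ := ∏ j ∈ Finset.range k, ((j : ℝ) + 1 + α) with hQ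
  have hf : (0 : ℝ) < (k.factorial : ℝ) := by exact_mod_cast k.factorial_pos
  have hQ0 : 0 < Q := by
    refine Finset.prod_pos fun j _ => ?_
    have : (0 : ℝ) ≤ j := Nat.cast_nonneg j
    linarith
  have h4 : (p ^ 2 * z ^ 2 / 8) ^ k = p ^ (2 * k) * (((z / 2) ^ 2) ^ k / 2 ^ k) := by
    rw [pow_mul, ← div_pow, ← mul_pow]
    congr 1
    ring
  rw [h4, show gco p k * (p ^ (2 * k) * (((z / 2) ^ 2) ^ k / 2 ^ k)) =
    (gco p k * p ^ (2 * k)) * (((z / 2) ^ 2) ^ k / 2 ^ k) by ring, h3]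
  have h5 : ((-2 : ℝ)) ^ k = (-1) ^ k * 2 ^ k := by rw [← mul_pow]; norm_num
  rw [h5]
  have h6 : Real.Gamma (α + 1) * (z / 2) ^ (-α) *
      ((-1) ^ k / ((k.factorial : ℝ) * (Real.Gamma (α + 1) * Q)) *
        ((z / 2) ^ α * ((z / 2) ^ 2) ^ k)) =
      ((z / 2) ^ (-α) * (z / 2) ^ α) * (Real.Gamma (α + 1) * ((-1) ^ k /
        ((k.factorial : ℝ) * (Real.Gamma (α + 1) * Q))) * ((z / 2) ^ 2) ^ k) := by ring
  rw [h6, h2, one_mul]
  field_simp

/-- the smallest positive zero of the normalised Bessel function -/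
theorem isLeast_bessel {p : ℝ} (hp : 1 < p) :
    IsLeast {z : ℝ | 0 < z ∧ besselJt (-1 / p) z = 0} (Real.sqrt (8 * tst p) / p) := by
  have hp0 : 0 < p := by linarith
  have ht := tst_pos hp
  have h8 : 0 < 8 * tst p := by positivity
  have hs : 0 < Real.sqrt (8 * tst p) := Real.sqrt_pos.2 h8
  constructor
  · refine ⟨by positivity, ?_⟩
    rw [besselJt_eq hp (by positivity)]
    have h1 : p ^ 2 * (Real.sqrt (8 * tst p) / p) ^ 2 / 8 = tst p := by
      rw [div_pow, Real.sq_sqrt h8.le]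
      field_simp
    rw [h1]
    exact (isLeast_tst hp).1.2
  · rintro z ⟨hz, hz0⟩
    rw [besselJt_eq hp hz] at hz0
    have h1 := (isLeast_tst hp).2 ⟨by positivity, hz0⟩
    rw [div_le_iff₀ hp0]
    refine Real.sqrt_le_iff.2 ⟨by positivity, ?_⟩
    nlinarith

end Pool.Agent.Helper98.LogPoly
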